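import Pool.Agent.Helper96.SE.Stmts
import Pool.Agent.Helper34.Grid.FD

set_option autoImplicit false

namespace Pool.Agent.Helper96.SE

open Pool.Agent.Helper52.Grid Pool.Agent.Helper34.Grid

theorem fdg_vE_lt (ρ : RK) (i r x : ℕ) (hx : x < 18) : vE ρ i r x = vE ρ 0 r x := by
  unfold vE
  split_ifs with h1 h2 h3
  · rfl
  · rfl
  · rfl
  · have h4 : x - 16 = 0 ∨ x - 16 = 1 := by omega
    rcases h4 with h4 | h4 <;> rw [h4] <;> rfl

theorem fdg_loc (ρ : RK) : ∀ r < 6, ∀ x < 18, z (hE ρ r x) +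
    (if x = 0 then r % 2 else z (hE ρ r (x - 1))) + z (vE ρ 0 r x) +
    (if r = 0 then (if ρ = .L then z (vE .U 0 5 x) else 0) else z (vE ρ 0 (r - 1) x)) ≤ 2 := by
  cases ρ <;> decide +kernel

theorem fdg_up5 (ρ : RK) (hρ : ρ ≠ .U) : ∀ x < 18, z (vE ρ 0 5 x) = 0 := by
  cases ρ
  · decide +kernel
  · exact absurd rfl hρ
  · decide +kernel

theorem fdg_rk_L {T : ℕ → Bool} {i : ℕ} (h : rk T (i + 1) = .L) :
    rk T i = .U := by
  unfold rk at h ⊢
  split_ifs at h with h1 h2
  rw [Nat.add_sub_cancel] at h2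
  rw [if_pos h2.2]

theorem fdg_rk_U {T : ℕ → Bool} {M : ℕ} (hT : VT M T) {i : ℕ} (h : rk T i = .U) :
    rk T (i + 1) = .L := by
  unfold rk at h ⊢
  split_ifs at h with h1
  have h2 := hT.sep i h1
  rw [if_neg (by rw [h2]; exact Bool.false_ne_true), if_pos ⟨by omega, by rw [Nat.add_sub_cancel]; exact h1⟩]

theorem fdg_hE_ge (ρ : RK) (r x : ℕ) (hr : r < 6) (hx : 18 ≤ x) : z (hE ρ r x) = 0 := by
  unfold hE
  rw [if_neg (by omega), if_neg (by omega), if_neg (by omega)]
  obtain ⟨a, ha⟩ : ∃ a, x - 16 = a + 2 := ⟨x - 18, by omega⟩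
  rw [ha]
  interval_cases r <;> simp [z, hR]

theorem fdg_hE_17 (ρ : RK) (r : ℕ) : hE ρ r 17 = hR r 1 := by
  unfold hE
  rw [if_neg (by omega), if_neg (by omega), if_neg (by omega)]

theorem fdg_vE_18 (ρ : RK) (i r : ℕ) : vE ρ i r 18 = vR i r 2 := by
  unfold vE
  rw [if_neg (by omega), if_neg (by omega), if_neg (by omega)]

theorem st_FDG : ST_FDG := by
  intro s M T hs1 hs2 hT x y
  change z (hN s M T (x + 1) (y + 1)) + z (hN s M T (x + 1 - 1) (y + 1)) +
    z (vN s M T (x + 1) (y + 1)) + z (vN s M T (x + 1) (y + 1 - 1)) ≤ 2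
  rw [Nat.add_sub_cancel, Nat.add_sub_cancel]
  by_cases hx : x + 1 < 5 + 4 * s.length
  · rw [hN_old hx, hN_old (by omega : x < 5 + 4 * s.length), vN_old hx, vN_old hx]
    exact mod_FD s M hs1 hs2 x y
  have a1 := z_le (hN s M T (x + 1) (y + 1))
  have a2 := z_le (hN s M T x (y + 1))
  have a3 := z_le (vN s M T (x + 1) (y + 1))
  have a4 := z_le (vN s M T (x + 1) y)
  by_cases hy : y + 1 < 4
  · rw [hN_top (by omega) hy, vN_top (by omega) hy, vN_top (by omega) (by omega : y < 4)]
    have b4 : z (if y = 3 ∧ x + 1 = 23 + 4 * s.length then 0 else 4) = 0 := by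
      rw [if_neg (by omega)]
      rfl
    rw [b4]
    have b1 : z (if y + 1 = 3 ∧ x + 1 < 23 + 4 * s.length then 0 else 4) +
        z (if y + 1 = 3 ∧ x + 1 = 23 + 4 * s.length then 0 else 4) ≤ 1 := by
      by_cases c : y + 1 = 3 ∧ x + 1 < 23 + 4 * s.length
      · rw [if_pos c, if_neg (by omega)]
        simp [z]
      · rw [if_neg c]
        have c1 := z_le (if y + 1 = 3 ∧ x + 1 = 23 + 4 * s.length then 0 else 4)
        have c2 : z 4 = 0 := by simp [z]
        omega
    omega
  obtain ⟨i, r, hr, hy'⟩ : ∃ i r, r < 6 ∧ y + 1 = 4 + 6 * i + r :=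
    ⟨(y + 1 - 4) / 6, (y + 1 - 4) % 6, by omega, by omega⟩
  by_cases hi : i < 2 * M + 1
  swap
  · have b1 : z (hN s M T (x + 1) (y + 1)) = 0 := z_ne (by rw [hN_bot (by omega)]; norm_num)
    have b2 : z (hN s M T x (y + 1)) = 0 := z_ne (by rw [hN_bot (by omega)]; norm_num)
    omega
  obtain ⟨x', hx'⟩ : ∃ x', x + 1 = 5 + 4 * s.length + x' := ⟨x + 1 - (5 + 4 * s.length), by omega⟩
  rw [hN_row hi hr hx' hy', vN_row hi hr hx' hy']
  have hleft : z (hN s M T x (y + 1)) = if x' = 0 then r % 2 else z (hE (rk T i) r (x' - 1)) := by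
    split_ifs with h0
    · rw [hN_old (by omega)]
      exact left_border s M s.length i r x (y + 1) le_rfl hi hr (by omega) hy'
    · rw [hN_row (x := x' - 1) hi hr (by omega) hy']
  by_cases hx18 : x' < 18
  · have hloc := fdg_loc (rk T i) r hr x' hx18
    rw [hleft, fdg_vE_lt _ i r x' hx18]
    have hup : z (vN s M T (x + 1) y) = if r = 0 then (if rk T i = .L then z (vE .U 0 5 x') else 0)
        else z (vE (rk T i) 0 (r - 1) x') := by
      split_ifs with h0 hL
      · have hi0 : i ≠ 0 := by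
          intro h
          subst h
          simp [rk] at hL
          split_ifs at hL
        obtain ⟨j, rfl⟩ : ∃ j, i = j + 1 := ⟨i - 1, by omega⟩
        rw [vN_row (i := j) (r := 5) (by omega) (by omega) hx' (by omega), fdg_rk_L hL,
          fdg_vE_lt _ j 5 x' hx18]
      · rcases Nat.eq_zero_or_pos i with hi0 | hi0
        · rw [vN_top (by omega) (by omega), if_neg (by omega)]
          rfl
        · obtain ⟨j, rfl⟩ : ∃ j, i = j + 1 := ⟨i - 1, by omega⟩
          rw [vN_row (i := j) (r := 5) (by omega) (by omega) hx' (by omega),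
            fdg_vE_lt _ j 5 x' hx18]
          exact fdg_up5 _ (fun hU => hL (fdg_rk_U hT hU)) x' hx18
      · rw [vN_row (i := i) (r := r - 1) hi (by omega) hx' (by omega), fdg_vE_lt _ i (r - 1) x' hx18]
    rw [hup]
    exact hloc
  · have b1 := fdg_hE_ge (rk T i) r x' hr (by omega)
    by_cases hx19 : x' = 18
    · subst hx19
      rw [b1, hleft, if_neg (by omega), fdg_hE_17, fdg_vE_18]
      have hup : z (vN s M T (x + 1) y) = if r = 0 then (if i % 2 = 0 then 1 else 0)
          else z (vR i (r - 1) 2) := by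
        split_ifs with h0 hL
        · rcases Nat.eq_zero_or_pos i with hi0 | hi0
          · rw [vN_top (by omega) (by omega), if_pos (by omega)]
            rfl
          · obtain ⟨j, rfl⟩ : ∃ j, i = j + 1 := ⟨i - 1, by omega⟩
            rw [vN_row (i := j) (r := 5) (by omega) (by omega) hx' (by omega), fdg_vE_18]
            have : ¬ j % 2 = 0 := by omega
            simp [vR, this, z]
        · obtain ⟨j, rfl⟩ : ∃ j, i = j + 1 := ⟨i - 1, by omega⟩
          rw [vN_row (i := j) (r := 5) (by omega) (by omega) hx' (by omega), fdg_vE_18]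
          have : j % 2 = 0 := by omega
          simp [vR, this, z]
        · rw [vN_row (i := i) (r := r - 1) hi (by omega) hx' (by omega), fdg_vE_18]
      rw [hup]
      by_cases h2 : i % 2 = 0
      · interval_cases r <;> simp [z, hR, vR, h2]
      · interval_cases r <;> simp [z, hR, vR, h2]
    · have b2 : z (hN s M T x (y + 1)) = 0 := by
        rw [hleft, if_neg (by omega)]
        exact fdg_hE_ge (rk T i) r (x' - 1) hr (by omega)
      rw [vN_row hi hr hx' hy'] at a3
      omega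

end Pool.Agent.Helper96.SE
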